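import Pool.Agent.X146.Tet.Main

/-!
# MP_aceab8_an, Q2: a periodic billiard orbit in a regular tetrahedron has an even number of bounces

The definitions (`IsRegularTetrahedron`, `Solid`, `OpenFace`, `Reflects`, `ReturnsAfter`,
`IsPeriodicOrbit`) are in `Pool/Agent/X146/Tet/Def.lean`.

## Outline of the proof

Let the orbit have `n` bounces, on the faces `f 1, …, f n`. Since the interiors of the legs lie in the
interior of the solid, consecutive faces are different, and `f n ≠ f 1`; the velocity `v` is fixed by
the product `M = R (f n) ⋯ R (f 1)` of the reflections in the planes through `0` parallel to the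
faces. In a suitable orthonormal basis the normals of the faces are proportional to
`e 0 = (1,1,1)`, `e 1 = (1,-1,-1)`, `e 2 = (-1,1,-1)`, `e 3 = (-1,-1,1)`, so `3 R i` is the integral
matrix `N i = 3 - 2 e i (e i)ᵀ ≡ e i (e i)ᵀ` modulo `3`, and `⟨e i, e j⟩ = -1` for `i ≠ j`. Hence
`3 ^ n M ≡ ± e (f n) (e (f 1))ᵀ` modulo `3`, the trace of which is `± ⟨e (f n), e (f 1)⟩ = ∓ 1`. If
`n` is odd then `M` is an orthogonal matrix with determinant `-1` and eigenvalue `1`, so its trace
is `1`, and the trace of `3 ^ n M` is `3 ^ n ≡ 0`, a contradiction.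
-/

set_option autoImplicit false

namespace Pool.Agent.Results.MP_aceab8_an.EvenBounces

open Pool.Agent.X146.Tet

/-- Every periodic billiard orbit in a solid regular tetrahedron has an even number of bounces. -/
theorem result (A : Fin 4 → EuclideanSpace ℝ (Fin 3)) (hA : IsRegularTetrahedron A)
    (x v : EuclideanSpace ℝ (Fin 3)) (n : ℕ) (h : IsPeriodicOrbit A x v n) : Even n :=
  even_of_returns hA h.1.1 h.1.2

end Pool.Agent.Results.MP_aceab8_an.EvenBounces
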